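import Mathlib

/-!
# Definitions for the planar equation `Δu + p(|x|) q(e^u) = 4πN δ`

The plane `ℝ²` is `ℂ` with its Euclidean structure; `Δ` is the Laplacian of Mathlib.
-/

set_option autoImplicit false

open MeasureTheory Filter Topology Set Real Laplacian
open scoped ContDiff

namespace Pool.Agent.U562.RS

/-- `f t = e^{2t} p(e^t)`. -/
noncomputable def fOf (p : ℝ → ℝ) (t : ℝ) : ℝ := exp (2 * t) * p (exp t)

/-- `g u = q(e^u)`. -/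
noncomputable def gOf (q : ℝ → ℝ) (u : ℝ) : ℝ := q (exp u)

/-- `G₀ u = ∫_{-∞}^u g`. -/
noncomputable def G0 (g : ℝ → ℝ) (u : ℝ) : ℝ := ∫ x in Iic u, g x

/-- `M₀ = inf {M > 0 : ∫₀^∞ f(t) g(-Mt) dt < ∞}`. -/
noncomputable def M0 (f g : ℝ → ℝ) : ℝ :=
  sInf {M : ℝ | 0 < M ∧ IntegrableOn (fun t => f t * g (-M * t)) (Ioi 0)}

/-- The hypotheses (H1)-(H8) of the problem on `f` and `g`. -/
structure Hyp (f g : ℝ → ℝ) : Prop where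
  /-- (H1) -/
  h1f : ContDiff ℝ 1 f
  h1g : ContDiff ℝ 1 g
  h1i : IntegrableOn (fun t => |t * f t|) (Iic 0)
  h1b : ∃ C, ∀ u, |g u| + |deriv g u| ≤ C
  /-- (H2) -/
  h2a : ∀ t, 0 < f t
  h2b : Tendsto f atTop atTop
  h2c : g 0 = 0
  h2d : ∀ u < 0, 0 < g u
  /-- (H3) -/
  h3 : ∀ t, 0 ≤ deriv f t
  /-- (H4) -/
  h4 : ∃ M > 0, (∀ u < -M, 0 < deriv g u) ∧ IntegrableOn (fun t => f t * g (-M * t)) (Ioi 0)
  /-- (H5): the set which defines `M₀` is nonempty, `∫₀^∞ f(t) g(-M₀t) dt = ∞` (the integrand is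
  nonnegative and continuous), and `inf_{t>0} f(t-c)/f(t) > 0` for all `c > 0`. -/
  h5a : {M : ℝ | 0 < M ∧ IntegrableOn (fun t => f t * g (-M * t)) (Ioi 0)}.Nonempty
  h5b : ¬ IntegrableOn (fun t => f t * g (-(M0 f g) * t)) (Ioi 0)
  h5c : ∀ c > 0, ∃ ε > 0, ∀ t > 0, ε ≤ f (t - c) / f t
  /-- (H6), (H7): the integral `G₀` converges, `F₁ = f'/f` and `G₁ = G₀/g` have finite limits
  `f₁` (at `∞`) and `g₁` (at `-∞`), and `F₁ ≥ f₁` on `ℝ`, `G₁ ≥ g₁` on `(-∞, 0)`. -/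
  h6i : ∀ u, IntegrableOn g (Iic u)
  h67f : ∃ f₁ : ℝ, Tendsto (fun t => deriv f t / f t) atTop (𝓝 f₁) ∧ ∀ t, f₁ ≤ deriv f t / f t
  h67g : ∃ g₁ : ℝ, Tendsto (fun u => G0 g u / g u) atBot (𝓝 g₁) ∧ ∀ u < 0, g₁ ≤ G0 g u / g u
  /-- (H8) -/
  h8 : ∃ δ > 0, ∀ u, -δ ≤ u → u ≤ 0 → deriv g u ≤ 0

/-- `u` is a negative solution of `Δu + p(|x|) q(e^u) = 4πN δ` on `ℝ²`: locally integrable, smooth
and negative off the origin, and the equation holds in the sense of distributions. -/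
structure IsNegSol (N : ℝ) (p q : ℝ → ℝ) (u : ℂ → ℝ) : Prop where
  loc : LocallyIntegrable u
  locR : LocallyIntegrable fun x => p ‖x‖ * q (exp (u x))
  smooth : ContDiffOn ℝ ∞ u {0}ᶜ
  eq : ∀ φ : ℂ → ℝ, ContDiff ℝ ∞ φ → HasCompactSupport φ →
    (∫ x, u x * Δ φ x) + ∫ x, p ‖x‖ * q (exp (u x)) * φ x = 4 * π * N * φ 0
  neg : ∀ x, x ≠ 0 → u x < 0

/-- `u` is radially symmetric about the origin. -/
def IsRad (u : ℂ → ℝ) : Prop := ∀ x y : ℂ, x ≠ 0 → y ≠ 0 → ‖x‖ = ‖y‖ → u x = u y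

end Pool.Agent.U562.RS
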