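import Mathlib

/-!
# The truncated exponential nonlinearity

`q s = s - ((2 s - 1)₊)² (s + 3) / (4 s²)`, which is `s` for `s ≤ 1/2` and
`(1 - s)(8 s - 3)/(4 s²)` for `s ≥ 1/2`, and `g u = q (exp u)`.
-/

set_option autoImplicit false

open MeasureTheory Filter Topology Set Real

namespace Pool.Agent.U562.RS

/-- The nonlinearity `q`. -/
noncomputable def q (s : ℝ) : ℝ := s - (max 0 (2 * s - 1)) ^ 2 * (s + 3) / (4 * s ^ 2)

theorem hasDerivAt_sqmax (x : ℝ) : HasDerivAt (fun x : ℝ => (max 0 x) ^ 2) (2 * max 0 x) x := by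
  rcases lt_trichotomy x 0 with h | h | h
  · have h1 : (fun x : ℝ => (max 0 x) ^ 2) =ᶠ[𝓝 x] fun _ => 0 := by
      filter_upwards [Iio_mem_nhds h] with y hy
      rw [max_eq_left (le_of_lt hy)]
      norm_num
    rw [max_eq_left h.le]
    simpa using (hasDerivAt_const x (0 : ℝ)).congr_of_eventuallyEq h1
  · subst h
    have h1 : HasDerivAt (fun x : ℝ => (max 0 x) ^ 2) 0 0 := by
      rw [hasDerivAt_iff_isLittleO_nhds_zero]
      simp only [zero_add, max_self, smul_zero, sub_zero]
      norm_num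
      have h2 : (fun h : ℝ => (max 0 h) ^ 2) =O[𝓝 0] fun h : ℝ => h ^ 2 := by
        refine Asymptotics.IsBigO.of_bound 1 (Eventually.of_forall fun y => ?_)
        rw [one_mul, norm_pow, norm_pow]
        refine pow_le_pow_left₀ (norm_nonneg _) ?_ 2
        rw [Real.norm_eq_abs, Real.norm_eq_abs, abs_of_nonneg (le_max_left _ _)]
        exact max_le (abs_nonneg _) (le_abs_self _)
      refine h2.trans_isLittleO ?_
      have := Asymptotics.isLittleO_pow_pow (𝕜 := ℝ) (m := 1) (n := 2) (by norm_num)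
      simpa using this
    simpa using h1
  · have h1 : (fun x : ℝ => (max 0 x) ^ 2) =ᶠ[𝓝 x] fun x => x ^ 2 := by
      filter_upwards [Ioi_mem_nhds h] with y hy
      rw [max_eq_right (le_of_lt hy)]
    rw [max_eq_right h.le]
    simpa using (hasDerivAt_pow 2 x).congr_of_eventuallyEq h1

/-- The derivative of `q`. -/
noncomputable def q' (s : ℝ) : ℝ :=
  1 - ((2 * max 0 (2 * s - 1) * 2 * (s + 3) + (max 0 (2 * s - 1)) ^ 2) * (4 * s ^ 2)
    - (max 0 (2 * s - 1)) ^ 2 * (s + 3) * (4 * (2 * s))) / (4 * s ^ 2) ^ 2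

theorem hasDerivAt_q {s : ℝ} (hs : 0 < s) : HasDerivAt q (q' s) s := by
  have h1 : HasDerivAt (fun s : ℝ => 2 * s - 1) 2 s := by
    simpa using ((hasDerivAt_id s).const_mul 2).sub_const 1
  have h2 : HasDerivAt (fun s : ℝ => (max 0 (2 * s - 1)) ^ 2) (2 * max 0 (2 * s - 1) * 2) s :=
    HasDerivAt.comp (h₂ := fun x : ℝ => (max 0 x) ^ 2) s (hasDerivAt_sqmax (2 * s - 1)) h1
  have h3 : HasDerivAt (fun s : ℝ => s + 3) 1 s := (hasDerivAt_id s).add_const 3
  have h4 : HasDerivAt (fun s : ℝ => 4 * s ^ 2) (4 * (2 * s)) s := by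
    simpa using (hasDerivAt_pow 2 s).const_mul 4
  have h5 := (hasDerivAt_id s).sub ((h2.mul h3).div h4 (by positivity))
  refine h5.congr_deriv ?_
  simp only [q', mul_one, Pi.mul_apply]

/-- `g u = q (exp u)`. -/
noncomputable def g (u : ℝ) : ℝ := q (exp u)

/-- the derivative of `g`. -/
noncomputable def g' (u : ℝ) : ℝ := q' (exp u) * exp u

theorem hasDerivAt_g (u : ℝ) : HasDerivAt g (g' u) u :=
  (hasDerivAt_q (exp_pos u)).comp u (Real.hasDerivAt_exp u)

theorem deriv_g : deriv g = g' := funext fun u => (hasDerivAt_g u).deriv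

theorem continuous_g' : Continuous g' := by
  unfold g' q'
  refine Continuous.mul (continuous_const.sub (Continuous.div (by fun_prop) (by fun_prop) ?_))
    Real.continuous_exp
  intro x
  have := exp_pos x
  positivity

theorem contDiff_g : ContDiff ℝ 1 g := by
  rw [contDiff_one_iff_deriv]
  refine ⟨fun u => (hasDerivAt_g u).differentiableAt, ?_⟩
  rw [deriv_g]
  exact continuous_g'

theorem q_low {s : ℝ} (h : s ≤ 1 / 2) : q s = s := by
  unfold q
  rw [max_eq_left (by linarith)]
  norm_num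

theorem q'_low {s : ℝ} (h : s ≤ 1 / 2) : q' s = 1 := by
  unfold q'
  rw [max_eq_left (by linarith)]
  norm_num

theorem q_high {s : ℝ} (h : 1 / 2 ≤ s) : q s = (1 - s) * (8 * s - 3) / (4 * s ^ 2) := by
  unfold q
  rw [max_eq_right (by linarith)]
  have : s ≠ 0 := by linarith
  field_simp
  ring

theorem q'_high {s : ℝ} (h : 1 / 2 ≤ s) : q' s = (6 - 11 * s) / (4 * s ^ 3) := by
  unfold q'
  rw [max_eq_right (by linarith)]
  have : s ≠ 0 := by linarith
  field_simp
  ring

theorem g_pos {u : ℝ} (hu : u < 0) : 0 < g u := by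
  unfold g
  have h0 := exp_pos u
  have h1 : exp u < 1 := by
    rw [Real.exp_lt_one_iff]
    exact hu
  rcases le_total (exp u) (1 / 2) with h | h
  · rw [q_low h]
    exact h0
  · rw [q_high h]
    have : 0 < 1 - exp u := by linarith
    have : 0 < 8 * exp u - 3 := by linarith
    positivity

theorem g_le (u : ℝ) : g u ≤ exp u := by
  unfold g q
  have h0 := exp_pos u
  have : 0 ≤ (max 0 (2 * exp u - 1)) ^ 2 * (exp u + 3) / (4 * exp u ^ 2) := by positivity
  linarith

theorem g_zero : g 0 = 0 := by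
  unfold g
  rw [Real.exp_zero, q_high (by norm_num)]
  norm_num

theorem g_low {u : ℝ} (h : exp u ≤ 1 / 2) : g u = exp u := q_low h

theorem g'_low {u : ℝ} (h : exp u ≤ 1 / 2) : g' u = exp u := by
  unfold g'
  rw [q'_low h, one_mul]

theorem g'_high {u : ℝ} (h : 1 / 2 ≤ exp u) : g' u = (6 - 11 * exp u) / (4 * exp u ^ 2) := by
  unfold g'
  rw [q'_high h]
  have := (exp_pos u).ne'
  field_simp

theorem g'_le_g {u : ℝ} (hu : u ≤ 0) : g' u ≤ g u := by
  have h0 := exp_pos u
  have h1 : exp u ≤ 1 := Real.exp_le_one_iff.mpr hu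
  rcases le_total (exp u) (1 / 2) with h | h
  · rw [g_low h, g'_low h]
  · rw [g'_high h]
    unfold g
    rw [q_high h]
    rw [div_le_div_iff_of_pos_right (by positivity)]
    nlinarith

theorem g_bdd (u : ℝ) : |g u| + |g' u| ≤ 40 := by
  have h0 := exp_pos u
  rcases le_total (exp u) (1 / 2) with h | h
  · rw [g_low h, g'_low h, abs_of_pos h0]
    linarith
  · rw [g'_high h]
    unfold g
    rw [q_high h, abs_div, abs_div, abs_of_pos (by positivity : 0 < 4 * exp u ^ 2), ← add_div,
      div_le_iff₀ (by positivity)]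
    have h2 : |(1 - exp u) * (8 * exp u - 3)| ≤ (1 + exp u) * (8 * exp u + 3) := by
      rw [abs_mul]
      refine mul_le_mul ?_ ?_ (abs_nonneg _) (by positivity)
      · rw [abs_le]; constructor <;> linarith
      · rw [abs_le]; constructor <;> linarith
    have h3 : |6 - 11 * exp u| ≤ 6 + 11 * exp u := by
      rw [abs_le]; constructor <;> linarith
    nlinarith

theorem g'_near {u : ℝ} (h1 : -(1 / 3) ≤ u) : g' u ≤ 0 := by
  have h2 := Real.add_one_le_exp u
  have h3 : 2 / 3 ≤ exp u := by linarith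
  rw [g'_high (by linarith)]
  refine div_nonpos_of_nonpos_of_nonneg (by linarith) (by positivity)

theorem continuous_g : Continuous g := contDiff_g.continuous

theorem abs_g_le {u : ℝ} (hu : u ≤ 0) : |g u| ≤ exp u := by
  rcases hu.lt_or_eq with h | h
  · rw [abs_of_pos (g_pos h)]
    exact g_le u
  · rw [h, g_zero]
    simp

theorem abs_g'_le {u : ℝ} : |g' u| ≤ 100 * exp u := by
  have h0 := exp_pos u
  rcases le_total (exp u) (1 / 2) with h | h
  · rw [g'_low h, abs_of_pos h0]
    linarith
  · have h1 := g_bdd u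
    have h2 := abs_nonneg (g u)
    linarith

theorem integrableOn_g (u : ℝ) : IntegrableOn g (Iic u) := by
  have h1 : IntegrableOn g (Iic (min u 0)) := by
    refine Integrable.mono' (integrableOn_exp_Iic (min u 0)) continuous_g.aestronglyMeasurable ?_
    filter_upwards [ae_restrict_mem measurableSet_Iic] with x hx
    rw [Real.norm_eq_abs]
    exact abs_g_le (le_trans hx (min_le_right _ _))
  have h2 : IntegrableOn g (Icc (min u 0) u) := continuous_g.continuousOn.integrableOn_Icc
  refine (h1.union h2).mono_set ?_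
  intro x hx
  rcases le_total x (min u 0) with h | h
  · exact Or.inl h
  · exact Or.inr ⟨h, hx⟩

theorem integrableOn_g' (u : ℝ) : IntegrableOn g' (Iic u) := by
  refine Integrable.mono' ((integrableOn_exp_Iic u).const_mul 100)
    continuous_g'.aestronglyMeasurable (Eventually.of_forall fun x => ?_)
  rw [Real.norm_eq_abs]
  exact abs_g'_le

theorem tendsto_g_atBot : Tendsto g atBot (𝓝 0) := by
  refine squeeze_zero_norm' (a := exp) ?_ Real.tendsto_exp_atBot
  filter_upwards [eventually_le_atBot 0] with u hu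
  rw [Real.norm_eq_abs]
  exact abs_g_le hu

theorem integral_g' (u : ℝ) : ∫ x in Iic u, g' x = g u := by
  have := integral_Iic_of_hasDerivAt_of_tendsto (a := u) (f := g) (f' := g') (m := 0)
    continuous_g.continuousAt.continuousWithinAt (fun x _ => hasDerivAt_g x) (integrableOn_g' u)
    tendsto_g_atBot
  rw [this, sub_zero]

theorem g_le_G {u : ℝ} (hu : u ≤ 0) : g u ≤ ∫ x in Iic u, g x := by
  rw [← integral_g']
  refine setIntegral_mono_on (integrableOn_g' u) (integrableOn_g u) measurableSet_Iic ?_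
  intro x hx
  exact g'_le_g (le_trans hx hu)

theorem G_low {u : ℝ} (h : exp u ≤ 1 / 2) : ∫ x in Iic u, g x = exp u := by
  rw [← integral_exp_Iic]
  refine setIntegral_congr_fun measurableSet_Iic ?_
  intro x hx
  exact g_low ((Real.exp_le_exp.mpr hx).trans h)

end Pool.Agent.U562.RS
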