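import Pool.Agent.U562.RS.Defs
import Pool.Agent.U562.RS.Gq

set_option autoImplicit false

open MeasureTheory Filter Topology Set Real Laplacian
open scoped ContDiff

namespace Pool.Agent.U562.RS

/-- The weight `p r = P r^(2σ)`. -/
noncomputable def pw (P σ : ℝ) (r : ℝ) : ℝ := P * r ^ (2 * σ)

theorem fOf_pw (P σ : ℝ) : fOf (pw P σ) = fun t => P * exp ((2 + 2 * σ) * t) := by
  funext t
  unfold fOf pw
  rw [← Real.exp_mul, mul_left_comm, ← Real.exp_add]
  congr 2
  ring

theorem gOf_q : gOf q = g := rfl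

theorem deriv_f (P κ : ℝ) : deriv (fun t => P * exp (κ * t)) = fun t => P * (exp (κ * t) * κ) := by
  funext t
  have h : HasDerivAt (fun t => κ * t) κ t := by simpa using (hasDerivAt_id t).const_mul κ
  exact (h.exp.const_mul P).deriv

theorem int_ok {P κ M : ℝ} (hP : 0 < P) (hM : κ < M) (hM0 : 0 < M) :
    IntegrableOn (fun t => P * exp (κ * t) * g (-M * t)) (Ioi 0) := by
  have h1 : IntegrableOn (fun t => P * exp (-(M - κ) * t)) (Ioi 0) :=
    (integrableOn_exp_mul_Ioi (by linarith) 0).const_mul P
  refine Integrable.mono' h1 ?_ ?_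
  · exact (((by fun_prop : Continuous fun t : ℝ => P * exp (κ * t))).mul
      (continuous_g.comp (by fun_prop))).aestronglyMeasurable
  · filter_upwards [ae_restrict_mem measurableSet_Ioi] with t ht
    have ht' : 0 < t := ht
    have h2 : -M * t ≤ 0 := by nlinarith
    have h3 := abs_g_le h2
    rw [Real.norm_eq_abs, abs_mul, abs_of_pos (by positivity : 0 < P * exp (κ * t))]
    calc P * exp (κ * t) * |g (-M * t)| ≤ P * exp (κ * t) * exp (-M * t) := by gcongr
      _ = P * exp (-(M - κ) * t) := by
        rw [mul_assoc, ← Real.exp_add]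
        congr 2
        ring

theorem int_bad {P κ M : ℝ} (hP : 0 < P) (hM : M ≤ κ) (hM0 : 0 < M) :
    ¬ IntegrableOn (fun t => P * exp (κ * t) * g (-M * t)) (Ioi 0) := by
  intro h
  set a : ℝ := 1 / M with ha
  have ha0 : 0 < a := by positivity
  have h1 : IntegrableOn (fun t => P * exp (κ * t) * g (-M * t)) (Ioi a) :=
    h.mono_set (Ioi_subset_Ioi ha0.le)
  have h2 : IntegrableOn (fun _ : ℝ => P) (Ioi a) := by
    refine Integrable.mono h1 aestronglyMeasurable_const ?_
    filter_upwards [ae_restrict_mem measurableSet_Ioi] with t ht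
    have ht' : a < t := ht
    have ht0 : 0 < t := ha0.trans ht'
    have h3 : 1 ≤ M * t := by
      have : M * a = 1 := by rw [ha]; field_simp
      nlinarith
    have h4 : exp (-M * t) ≤ 1 / 2 := by
      have h5 := Real.add_one_le_exp (M * t)
      have h6 : exp (-M * t) * exp (M * t) = 1 := by
        rw [← Real.exp_add]
        simp
      have h7 := exp_pos (-M * t)
      nlinarith
    rw [g_low h4, mul_assoc, ← Real.exp_add, Real.norm_eq_abs, Real.norm_eq_abs, abs_of_pos hP,
      abs_of_pos (by positivity)]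
    have h8 : 1 ≤ exp (κ * t + -M * t) := Real.one_le_exp (by nlinarith)
    nlinarith
  rw [integrableOn_const_iff] at h2
  rcases h2 with h2 | h2
  · exact hP.ne' (enorm_eq_zero.mp h2)
  · simp at h2

theorem M_set {P κ : ℝ} (hP : 0 < P) (hκ : 0 < κ) :
    {M : ℝ | 0 < M ∧ IntegrableOn (fun t => P * exp (κ * t) * g (-M * t)) (Ioi 0)} = Ioi κ := by
  ext M
  simp only [Set.mem_ofPred_eq, mem_Ioi]
  constructor
  · rintro ⟨h0, h1⟩
    by_contra h2
    exact int_bad hP (not_lt.mp h2) h0 h1
  · intro h
    exact ⟨hκ.trans h, int_ok hP h (hκ.trans h)⟩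

theorem hyp {P σ : ℝ} (hP : 0 < P) (hσ : 0 ≤ σ) : Hyp (fOf (pw P σ)) (gOf q) := by
  rw [fOf_pw, gOf_q]
  set κ : ℝ := 2 + 2 * σ with hκ
  have hκ0 : 0 < κ := by positivity
  have hM0 : M0 (fun t => P * exp (κ * t)) g = κ := by
    unfold M0
    rw [M_set hP hκ0, csInf_Ioi]
  refine
    { h1f := by fun_prop
      h1g := contDiff_g
      h1i := ?_
      h1b := ⟨40, fun u => by rw [deriv_g]; exact g_bdd u⟩
      h2a := fun t => by positivity
      h2b := ?_
      h2c := g_zero
      h2d := fun u hu => g_pos hu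
      h3 := fun t => ?_
      h4 := ?_
      h5a := ?_
      h5b := ?_
      h5c := ?_
      h6i := integrableOn_g
      h67f := ?_
      h67g := ?_
      h8 := ⟨1 / 3, by norm_num, fun u h1 _ => by rw [deriv_g]; exact g'_near h1⟩ }
  · have h1 : IntegrableOn (fun t => P * (2 / κ) * exp (κ / 2 * t)) (Iic 0) :=
      (integrableOn_exp_mul_Iic (by positivity) 0).const_mul _
    refine Integrable.mono' h1 (by fun_prop) ?_
    filter_upwards [ae_restrict_mem measurableSet_Iic] with t ht
    have ht' : t ≤ 0 := ht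
    rw [Real.norm_eq_abs, abs_abs, abs_mul, abs_of_pos (by positivity : 0 < P * exp (κ * t)),
      abs_of_nonpos ht']
    have h2 := Real.add_one_le_exp (-(κ / 2 * t))
    have h3 : -t ≤ 2 / κ * exp (-(κ / 2 * t)) := by
      rw [div_mul_eq_mul_div, le_div_iff₀ hκ0]
      nlinarith
    calc -t * (P * exp (κ * t)) ≤ (2 / κ * exp (-(κ / 2 * t))) * (P * exp (κ * t)) := by gcongr
      _ = P * (2 / κ) * (exp (-(κ / 2 * t)) * exp (κ * t)) := by ring
      _ = P * (2 / κ) * exp (κ / 2 * t) := by
        rw [← Real.exp_add]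
        congr 2
        ring
  · exact (Real.tendsto_exp_atTop.comp (tendsto_id.const_mul_atTop hκ0)).const_mul_atTop hP
  · rw [deriv_f]
    positivity
  · refine ⟨κ + 1, by positivity, fun u hu => ?_, int_ok hP (by linarith) (by positivity)⟩
    rw [deriv_g]
    have h1 : exp u ≤ 1 / 2 := by
      have h5 := Real.add_one_le_exp (-u)
      have h6 : exp u * exp (-u) = 1 := by
        rw [← Real.exp_add]
        simp
      have h7 := exp_pos u
      nlinarith
    rw [g'_low h1]
    exact exp_pos u
  · rw [M_set hP hκ0]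
    exact nonempty_Ioi
  · rw [hM0]
    exact int_bad hP le_rfl hκ0
  · intro c _
    refine ⟨exp (-κ * c), exp_pos _, fun t _ => le_of_eq ?_⟩
    rw [mul_div_mul_left _ _ hP.ne', ← Real.exp_sub]
    congr 1
    ring
  · have h1 : (fun t => deriv (fun t => P * exp (κ * t)) t / (P * exp (κ * t))) = fun _ => κ := by
      funext t
      rw [deriv_f]
      have := exp_pos (κ * t)
      field_simp
    refine ⟨κ, ?_, fun t => ?_⟩
    · rw [h1]
      exact tendsto_const_nhds
    · exact (congrFun h1 t).ge
  · refine ⟨1, ?_, fun u hu => ?_⟩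
    · refine tendsto_const_nhds.congr' ?_
      have h1 : Tendsto exp atBot (𝓝 0) := Real.tendsto_exp_atBot
      filter_upwards [h1.eventually_le_const (by norm_num : (0 : ℝ) < 1 / 2)] with u hu
      unfold G0
      rw [G_low hu, g_low hu, div_self (exp_pos u).ne']
    · unfold G0
      rw [le_div_iff₀ (g_pos hu), one_mul]
      exact g_le_G hu.le

end Pool.Agent.U562.RS
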