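import Pool.Agent.U562.RS.Defs
import Pool.Agent.H314.CS.Dist

/-!
# The Laplacian of `log (1 + |h|²)` for the polynomial `h z = z^(m+1) + 1`
-/

set_option autoImplicit false

open MeasureTheory Filter Topology Set Real Laplacian
open scoped ContDiff

namespace Pool.Agent.U562.RS

open Pool.Agent.H314.CS

/-- Laplacian on the complex plane from second derivatives along lines. -/
theorem lap_of_lines {f : ℂ → ℝ} (hf : ContDiff ℝ 2 f) {a1 aI : ℂ → ℝ} {x : ℂ} {b1 bI : ℝ}
    (h1 : ∀ y, HasDerivAt (fun t : ℝ => f (y + t * 1)) (a1 y) 0)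
    (hI : ∀ y, HasDerivAt (fun t : ℝ => f (y + t * Complex.I)) (aI y) 0)
    (h1' : HasDerivAt (fun t : ℝ => a1 (x + t * 1)) b1 0)
    (hI' : HasDerivAt (fun t : ℝ => aI (x + t * Complex.I)) bI 0) :
    Δ f x = b1 + bI := by
  have hline : ∀ y e : ℂ, HasDerivAt (fun t : ℝ => y + (t : ℂ) * e) e 0 := by
    intro y e
    have := ((Complex.ofRealCLM.hasDerivAt (x := (0 : ℝ))).mul_const e).const_add y
    simpa using this
  have hdf : Differentiable ℝ f := hf.differentiable (by norm_num)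
  have key : ∀ (e : ℂ) (a : ℂ → ℝ), (∀ y, HasDerivAt (fun t : ℝ => f (y + t * e)) (a y) 0) →
      (fun y => fderiv ℝ f y e) = a := by
    intro e a ha
    funext y
    have h2 : HasFDerivAt f (fderiv ℝ f y) (y + ((0 : ℝ) : ℂ) * e) := by
      simpa using (hdf y).hasFDerivAt
    have h3 := h2.comp_hasDerivAt (0 : ℝ) (hline y e)
    exact h3.unique (ha y)
  have key2 : ∀ (e : ℂ) (a : ℂ → ℝ) (b : ℝ), (fun y => fderiv ℝ f y e) = a →
      HasDerivAt (fun t : ℝ => a (x + t * e)) b 0 →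
      fderiv ℝ (fderiv ℝ f) x e e = b := by
    intro e a b he ha
    have hd : DifferentiableAt ℝ (fderiv ℝ f) x :=
      (hf.fderiv_right (m := 1) (by norm_num)).differentiable (by norm_num) x
    have h2 : HasFDerivAt (fun y => fderiv ℝ f y e)
        ((ContinuousLinearMap.apply ℝ ℝ e).comp (fderiv ℝ (fderiv ℝ f) x))
        (x + ((0 : ℝ) : ℂ) * e) := by
      have hx : x + ((0 : ℝ) : ℂ) * e = x := by simp
      rw [hx]
      exact (ContinuousLinearMap.apply ℝ ℝ e).hasFDerivAt.comp x hd.hasFDerivAt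
    have h3 := h2.comp_hasDerivAt (0 : ℝ) (hline x e)
    rw [he] at h3
    have := h3.unique ha
    simpa using this
  rw [InnerProductSpace.laplacian_eq_iteratedFDeriv_complexPlane]
  simp only [iteratedFDeriv_two_apply]
  simp only [Matrix.cons_val_zero, Matrix.cons_val_one]
  rw [key2 1 a1 b1 (key 1 a1 h1) h1', key2 Complex.I aI bI (key Complex.I aI hI) hI']

/-- `|h|²` for `h z = z^(m+1) + 1`. -/
noncomputable def nh (m : ℕ) (z : ℂ) : ℝ := Complex.normSq (z ^ (m + 1) + 1)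

theorem nh_nonneg (m : ℕ) (z : ℂ) : 0 ≤ nh m z := Complex.normSq_nonneg _

theorem contDiff_nh (m : ℕ) : ContDiff ℝ ∞ (nh m) := by
  have h1 : nh m = fun z => Complex.reCLM (z ^ (m + 1) + 1) * Complex.reCLM (z ^ (m + 1) + 1)
      + Complex.imCLM (z ^ (m + 1) + 1) * Complex.imCLM (z ^ (m + 1) + 1) := by
    funext z
    rfl
  rw [h1]
  have h2 : ContDiff ℝ ∞ (fun z : ℂ => z ^ (m + 1) + 1) := (contDiff_id.pow _).add contDiff_const
  have h3 := Complex.reCLM.contDiff.comp h2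
  have h4 := Complex.imCLM.contDiff.comp h2
  exact (h3.mul h3).add (h4.mul h4)

theorem deriv_line (m : ℕ) (e y : ℂ) :
    HasDerivAt (fun t : ℝ => (y + t * e) ^ (m + 1) + 1) ((m + 1 : ℂ) * y ^ m * e) 0 := by
  have h0 : HasDerivAt (fun t : ℝ => y + (t : ℂ) * e) e 0 := by
    have := ((Complex.ofRealCLM.hasDerivAt (x := (0 : ℝ))).mul_const e).const_add y
    simpa using this
  have h1 := (h0.pow (m + 1)).add_const 1
  refine h1.congr_deriv ?_
  simp

theorem deriv_line' (m : ℕ) (e y : ℂ) :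
    HasDerivAt (fun t : ℝ => (m + 1 : ℂ) * (y + t * e) ^ m * e)
      ((m + 1 : ℂ) * (m * y ^ (m - 1) * e) * e) 0 := by
  have h0 : HasDerivAt (fun t : ℝ => y + (t : ℂ) * e) e 0 := by
    have := ((Complex.ofRealCLM.hasDerivAt (x := (0 : ℝ))).mul_const e).const_add y
    simpa using this
  have h1 := ((h0.pow m).const_mul (m + 1 : ℂ)).mul_const e
  refine h1.congr_deriv ?_
  simp

/-- Real part of `conj(h) k`. -/
noncomputable def rp (a b : ℂ) : ℝ := a.re * b.re + a.im * b.im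

theorem deriv_normSq {h : ℝ → ℂ} {h' : ℂ} {t : ℝ} (hh : HasDerivAt h h' t) :
    HasDerivAt (fun t => Complex.normSq (h t)) (2 * rp (h t) h') t := by
  have h1 : HasDerivAt (fun t => (h t).re) h'.re t := Complex.reCLM.hasFDerivAt.comp_hasDerivAt t hh
  have h2 : HasDerivAt (fun t => (h t).im) h'.im t := Complex.imCLM.hasFDerivAt.comp_hasDerivAt t hh
  have h3 := (h1.mul h1).add (h2.mul h2)
  refine h3.congr_deriv ?_
  unfold rp
  ring

theorem deriv_rp {h k : ℝ → ℂ} {h' k' : ℂ} {t : ℝ} (hh : HasDerivAt h h' t)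
    (hk : HasDerivAt k k' t) :
    HasDerivAt (fun t => rp (h t) (k t)) (rp h' (k t) + rp (h t) k') t := by
  have h1 : HasDerivAt (fun t => (h t).re) h'.re t := Complex.reCLM.hasFDerivAt.comp_hasDerivAt t hh
  have h2 : HasDerivAt (fun t => (h t).im) h'.im t := Complex.imCLM.hasFDerivAt.comp_hasDerivAt t hh
  have k1 : HasDerivAt (fun t => (k t).re) k'.re t := Complex.reCLM.hasFDerivAt.comp_hasDerivAt t hk
  have k2 : HasDerivAt (fun t => (k t).im) k'.im t := Complex.imCLM.hasFDerivAt.comp_hasDerivAt t hk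
  have h3 := (h1.mul k1).add (h2.mul k2)
  refine h3.congr_deriv ?_
  unfold rp
  ring

theorem contDiff_log (m : ℕ) : ContDiff ℝ ∞ (fun z => Real.log (1 + nh m z)) :=
  (contDiff_const.add (contDiff_nh m)).log fun z => by
    have := nh_nonneg m z
    positivity

/-- `Δ log(1+|h|²) = 4 |h'|² / (1+|h|²)²`. -/
theorem lap_log (m : ℕ) (x : ℂ) :
    Δ (fun z => Real.log (1 + nh m z)) x
      = 4 * ((m + 1 : ℝ) ^ 2 * ‖x‖ ^ (2 * m)) / (1 + nh m x) ^ 2 := by
  set D : ℂ → ℂ → ℝ := fun e y =>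
    2 * rp (y ^ (m + 1) + 1) ((m + 1 : ℂ) * y ^ m * e) / (1 + nh m y) with hD
  have hfirst : ∀ e y : ℂ, HasDerivAt (fun t : ℝ => Real.log (1 + nh m (y + t * e))) (D e y) 0 := by
    intro e y
    have h1 := (deriv_normSq (deriv_line m e y)).const_add 1
    have h2 := h1.log (by
      have := Complex.normSq_nonneg ((y + ((0 : ℝ) : ℂ) * e) ^ (m + 1) + 1)
      positivity)
    refine h2.congr_deriv ?_
    simp [hD, nh]
  have hsecond : ∀ e : ℂ, HasDerivAt (fun t : ℝ => D e (x + t * e))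
      ((2 * (rp ((m + 1 : ℂ) * x ^ m * e) ((m + 1 : ℂ) * x ^ m * e)
        + rp (x ^ (m + 1) + 1) ((m + 1 : ℂ) * (m * x ^ (m - 1) * e) * e)) * (1 + nh m x)
        - 2 * rp (x ^ (m + 1) + 1) ((m + 1 : ℂ) * x ^ m * e)
          * (2 * rp (x ^ (m + 1) + 1) ((m + 1 : ℂ) * x ^ m * e))) / (1 + nh m x) ^ 2) 0 := by
    intro e
    have h1 := ((deriv_rp (deriv_line m e x) (deriv_line' m e x)).const_mul 2)
    have h2 := (deriv_normSq (deriv_line m e x)).const_add 1
    have h3 := h1.div h2 (by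
      have := Complex.normSq_nonneg ((x + ((0 : ℝ) : ℂ) * e) ^ (m + 1) + 1)
      positivity)
    refine h3.congr_deriv ?_
    simp [nh]
  have hc2 : ContDiff ℝ 2 (fun z => Real.log (1 + nh m z)) := contDiff_infty.1 (contDiff_log m) 2
  rw [lap_of_lines hc2 (hfirst 1) (hfirst Complex.I) (hsecond 1) (hsecond Complex.I)]
  rw [← add_div]
  congr 1
  have hn : ((m + 1 : ℝ) ^ 2 * ‖x‖ ^ (2 * m)) = Complex.normSq ((m + 1 : ℂ) * x ^ m) := by
    rw [map_mul, map_pow, Complex.normSq_eq_norm_sq x, pow_mul]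
    congr 1
    have : (m + 1 : ℂ) = ((m + 1 : ℝ) : ℂ) := by push_cast; rfl
    rw [this, Complex.normSq_ofReal]
    ring
  rw [hn]
  set A := x ^ (m + 1) + 1 with hA
  set B := (m + 1 : ℂ) * x ^ m with hB
  set C := (m + 1 : ℂ) * (m * x ^ (m - 1)) with hC
  have e1 : (m + 1 : ℂ) * (m * x ^ (m - 1) * 1) * 1 = C := by rw [hC]; ring
  have e2 : (m + 1 : ℂ) * (m * x ^ (m - 1) * Complex.I) * Complex.I = -C := by
    rw [hC]
    have := Complex.I_mul_I
    linear_combination ((m + 1 : ℂ) * (m * x ^ (m - 1))) * this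
  rw [e1, e2, mul_one]
  have hnh : nh m x = Complex.normSq A := rfl
  rw [hnh]
  simp only [rp, Complex.normSq_apply, Complex.mul_re, Complex.mul_im, Complex.I_re, Complex.I_im,
    Complex.neg_re, Complex.neg_im]
  ring

end Pool.Agent.U562.RS
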