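import Pool.Agent.U562.RS.HypProof
import Pool.Agent.U562.RS.Lap
import Pool.Agent.Y80.EL.Log

/-!
# Negative solutions which are not radially symmetric
-/

set_option autoImplicit false

open MeasureTheory Filter Topology Set Real Laplacian
open scoped ContDiff

namespace Pool.Agent.U562.RS

/-- The regular part of the solution. -/
noncomputable def vv (m : ℕ) (z : ℂ) : ℝ := -2 * Real.log (1 + nh m z) - Real.log 36

/-- The solution. -/
noncomputable def uu (N : ℝ) (m : ℕ) (z : ℂ) : ℝ := 2 * N * Real.log ‖z‖ + vv m z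

theorem contDiff_vv (m : ℕ) : ContDiff ℝ ∞ (vv m) :=
  (contDiff_const.mul (contDiff_log m)).sub contDiff_const

/-- The right-hand side density `8 (m+1)² |z|^(2m) / (1+|h|²)²`. -/
noncomputable def RR (m : ℕ) (z : ℂ) : ℝ :=
  8 * ((m + 1 : ℝ) ^ 2 * ‖z‖ ^ (2 * m)) / (1 + nh m z) ^ 2

theorem continuous_RR (m : ℕ) : Continuous (RR m) := by
  unfold RR
  refine Continuous.div (by fun_prop) ?_ ?_
  · exact (continuous_const.add (contDiff_nh m).continuous).pow 2
  · intro z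
    have := nh_nonneg m z
    positivity

theorem lap_vv (m : ℕ) (z : ℂ) : Δ (vv m) z = - RR m z := by
  have h1 : ContDiffAt ℝ 2 (fun z => Real.log (1 + nh m z)) z :=
    (contDiff_infty.1 (contDiff_log m) 2).contDiffAt
  have e : vv m = (-2 : ℝ) • (fun z => Real.log (1 + nh m z)) - fun _ => Real.log 36 := by
    funext z
    simp [vv]
  have h1' : ContDiffAt ℝ 2 ((-2 : ℝ) • (fun z => Real.log (1 + nh m z))) z := h1.const_smul (-2 : ℝ)
  rw [e, ContDiffAt.laplacian_sub h1' contDiffAt_const,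
    InnerProductSpace.laplacian_smul (-2 : ℝ) h1, lap_log]
  simp only [InnerProductSpace.laplacian_const, Pi.zero_apply, smul_eq_mul, RR]
  ring

theorem exp_uu {N : ℝ} {m : ℕ} {z : ℂ} (hz : z ≠ 0) :
    exp (uu N m z) = ‖z‖ ^ (2 * N) / (36 * (1 + nh m z) ^ 2) := by
  have h0 : 0 < ‖z‖ := norm_pos_iff.mpr hz
  have h1 : 0 < 1 + nh m z := by
    have := nh_nonneg m z
    positivity
  unfold uu vv
  have e1 : 2 * N * Real.log ‖z‖ + (-2 * Real.log (1 + nh m z) - Real.log 36)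
      = Real.log ‖z‖ * (2 * N) - (Real.log ((1 + nh m z) ^ 2) + Real.log 36) := by
    rw [Real.log_pow]
    push_cast
    ring
  rw [e1, Real.exp_sub, Real.exp_add, Real.exp_log (by positivity), Real.exp_log (by norm_num),
    ← Real.rpow_def_of_pos h0]
  congr 1
  ring

theorem exp_uu_le {N : ℝ} {m : ℕ} {z : ℂ} (hN : 0 ≤ N) (hNm : N ≤ m) (hz : z ≠ 0) :
    exp (uu N m z) ≤ 1 / 2 := by
  rw [exp_uu hz]
  have h0 : 0 < ‖z‖ := norm_pos_iff.mpr hz
  have h1 : 0 ≤ nh m z := nh_nonneg m z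
  set r := ‖z‖ with hr
  have h2 : r ^ N ≤ 1 + r ^ (m + 1) := by
    rcases le_total r 1 with h | h
    · have h3 : r ^ N ≤ 1 := Real.rpow_le_one h0.le h hN
      have h4 : 0 ≤ r ^ (m + 1) := by positivity
      linarith
    · have h3 : r ^ N ≤ r ^ ((m + 1 : ℕ) : ℝ) :=
        Real.rpow_le_rpow_of_exponent_le h (by push_cast; linarith)
      rw [Real.rpow_natCast] at h3
      linarith
  have h5 : r ^ (2 * N) = (r ^ N) ^ 2 := by
    rw [mul_comm, Real.rpow_mul h0.le]
    norm_num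
  have h6 : (r ^ (m + 1)) ^ 2 = Complex.normSq (z ^ (m + 1)) := by
    rw [Complex.normSq_eq_norm_sq, norm_pow]
  have h7 : Complex.normSq (z ^ (m + 1)) ≤ 2 * nh m z + 2 := by
    unfold nh
    simp only [Complex.normSq_apply, Complex.add_re, Complex.add_im, Complex.one_re, Complex.one_im]
    nlinarith [sq_nonneg ((z ^ (m + 1)).re + 2), sq_nonneg (z ^ (m + 1)).im]
  have h8 : (r ^ N) ^ 2 ≤ (1 + r ^ (m + 1)) ^ 2 := by
    have : 0 ≤ r ^ N := by positivity
    gcongr
  have h9 : (1 + r ^ (m + 1)) ^ 2 ≤ 2 + 2 * (r ^ (m + 1)) ^ 2 := by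
    nlinarith [sq_nonneg (1 - r ^ (m + 1))]
  rw [h5, div_le_iff₀ (by positivity)]
  nlinarith

theorem rhs_eq {N : ℝ} {m : ℕ} {z : ℂ} (hN : 0 ≤ N) (hNm : N ≤ m) (hz : z ≠ 0) :
    pw (288 * (m + 1 : ℝ) ^ 2) (m - N) ‖z‖ * q (exp (uu N m z)) = RR m z := by
  have h0 : 0 < ‖z‖ := norm_pos_iff.mpr hz
  rw [q_low (exp_uu_le hN hNm hz), exp_uu hz]
  unfold pw RR
  have h1 : ‖z‖ ^ (2 * ((m : ℝ) - N)) * ‖z‖ ^ (2 * N) = ‖z‖ ^ (2 * m) := by
    rw [← Real.rpow_add h0, ← Real.rpow_natCast]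
    congr 1
    push_cast
    ring
  have h2 : 0 < 1 + nh m z := by
    have := nh_nonneg m z
    positivity
  rw [← h1]
  field_simp
  ring

theorem ae_ne_zero : ∀ᵐ z : ℂ, z ≠ 0 := by
  rw [ae_iff]
  simp

theorem isNegSol {N : ℝ} {m : ℕ} (hN : 0 ≤ N) (hNm : N ≤ m) :
    IsNegSol N (pw (288 * (m + 1 : ℝ) ^ 2) (m - N)) q (uu N m) := by
  have hae : (fun z => pw (288 * (m + 1 : ℝ) ^ 2) (m - N) ‖z‖ * q (exp (uu N m z)))
      =ᵐ[volume] RR m := by
    filter_upwards [ae_ne_zero] with z hz using rhs_eq hN hNm hz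
  refine ⟨?_, ?_, ?_, ?_, ?_⟩
  · have h1 : LocallyIntegrable (fun z : ℂ => 2 * N * Real.log ‖z‖) :=
      Pool.Agent.Y80.EL.locInt_log0.smul (2 * N)
    exact h1.add (contDiff_vv m).continuous.locallyIntegrable
  · exact (continuous_RR m).locallyIntegrable.congr hae.symm
  · have h1 : ContDiffOn ℝ ∞ (fun z : ℂ => Real.log ‖z‖) {0}ᶜ := by
      intro z hz
      have hz' : z ≠ 0 := hz
      exact ((contDiffAt_norm ℝ hz').log (norm_ne_zero_iff.mpr hz')).contDiffWithinAt
    exact (contDiffOn_const.mul h1).add (contDiff_vv m).contDiffOn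
  · intro φ hφ hc
    have hφ2 : ContDiff ℝ 2 φ := contDiff_infty.1 hφ 2
    have hL := Pool.Agent.Y80.EL.continuous_laplacian hφ2
    have hLc := Pool.Agent.Y80.EL.hasCompactSupport_laplacian hφ2 hc
    have i1 : Integrable fun x : ℂ => 2 * N * (Real.log ‖x‖ * Δ φ x) := by
      have := (Pool.Agent.Y80.EL.locInt_log0.integrable_smul_right_of_hasCompactSupport hL hLc)
      simpa only [smul_eq_mul] using this.const_mul (2 * N)
    have i2 : Integrable fun x : ℂ => vv m x * Δ φ x :=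
      ((contDiff_vv m).continuous.mul hL).integrable_of_hasCompactSupport hLc.mul_left
    have e1 : ∫ x, uu N m x * Δ φ x = 2 * N * (2 * π * φ 0) - ∫ x, RR m x * φ x := by
      have e2 : (fun x => uu N m x * Δ φ x)
          = fun x => 2 * N * (Real.log ‖x‖ * Δ φ x) + vv m x * Δ φ x := by
        funext x
        unfold uu
        ring
      rw [e2, integral_add i1 i2, integral_const_mul,
        Pool.Agent.Y80.EL.integral_log_laplacian hφ2 hc,
        Pool.Agent.H314.CS.LL.green (contDiff_infty.1 (contDiff_vv m) 2) hφ2 hc]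
      have e3 : (fun x => Δ (vv m) x * φ x) = fun x => -(RR m x * φ x) := by
        funext x
        rw [lap_vv]
        ring
      rw [e3, integral_neg]
      ring
    have e4 : ∫ x, pw (288 * (m + 1 : ℝ) ^ 2) (m - N) ‖x‖ * q (exp (uu N m x)) * φ x
        = ∫ x, RR m x * φ x := by
      refine integral_congr_ae ?_
      filter_upwards [hae] with x hx
      rw [hx]
    rw [e1, e4]
    ring
  · intro z hz
    have h1 := exp_uu_le hN hNm hz
    have h2 : exp (uu N m z) < 1 := by linarith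
    exact Real.exp_lt_one_iff.mp h2

theorem not_rad (N : ℝ) (m : ℕ) : ¬ IsRad (uu N m) := by
  intro h
  set ζ : ℂ := Complex.exp ((π / (m + 1) : ℝ) * Complex.I) with hζ
  have hn : ‖ζ‖ = 1 := Complex.norm_exp_ofReal_mul_I _
  have hp : ζ ^ (m + 1) = -1 := by
    rw [hζ, ← Complex.exp_nat_mul]
    have : ((m + 1 : ℕ) : ℂ) * (((π / (m + 1) : ℝ) : ℂ) * Complex.I) = π * Complex.I := by
      push_cast
      have : (m + 1 : ℂ) ≠ 0 := by exact_mod_cast Nat.succ_ne_zero m
      field_simp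
    rw [this, Complex.exp_pi_mul_I]
  have h1 : (1 : ℂ) ≠ 0 := one_ne_zero
  have h2 : ζ ≠ 0 := by
    rw [← norm_ne_zero_iff, hn]
    norm_num
  have h3 := h 1 ζ h1 h2 (by rw [hn, norm_one])
  unfold uu vv nh at h3
  rw [hn, hp, norm_one] at h3
  norm_num at h3

end Pool.Agent.U562.RS
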